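import Pool.Agent.H75R4.Gab.Stmts

set_option autoImplicit false

namespace Pool.Agent.H105R3.Gab

open Pool.Agent.H75R4.Gab Finset

abbrev G := Fin 5 → ℤ

/-- shift operators -/
def S (y : G) : Module.End (ZMod 7) (G → ZMod 7) where
  toFun f x := f (x - y)
  map_add' _ _ := rfl
  map_smul' _ _ := rfl

theorem S_apply (y : G) (f : G → ZMod 7) (x : G) : S y f x = f (x - y) := rfl

theorem S_mul (y z : G) : S y * S z = S (y + z) := by
  apply LinearMap.ext
  intro f
  funext x
  rw [Module.End.mul_apply, S_apply, S_apply, S_apply, sub_sub]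

theorem S_zero : S 0 = 1 := by
  apply LinearMap.ext
  intro f
  funext x
  rw [S_apply, sub_zero, Module.End.one_apply]

theorem S_pow (y : G) (n : ℕ) : (S y) ^ n = S (n • y) := by
  induction n with
  | zero => rw [pow_zero, zero_smul, S_zero]
  | succ n ih => rw [pow_succ, ih, S_mul, succ_nsmul]

theorem S_comm (y z : G) : Commute (S y) (S z) := by
  rw [Commute, SemiconjBy, S_mul, S_mul, add_comm]

theorem seven_mul (r : Module.End (ZMod 7) (G → ZMod 7)) : ((7 : ℕ) : Module.End (ZMod 7) (G → ZMod 7)) * r = 0 := by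
  apply LinearMap.ext
  intro f
  funext x
  rw [← nsmul_eq_mul]
  simp only [LinearMap.smul_apply, Pi.smul_apply, LinearMap.zero_apply, Pi.zero_apply]
  rw [nsmul_eq_mul]
  have : ((7 : ℕ) : ZMod 7) = 0 := by decide
  rw [this, zero_mul]

theorem frob (s : Finset (Fin 7)) :
    (∑ j ∈ s, S (YZ j)) ^ 7 = ∑ j ∈ s, S (7 • YZ j) := by
  classical
  induction s using Finset.induction_on with
  | empty => simp
  | insert a s ha ih =>
    rw [sum_insert ha, sum_insert ha]
    have hc : Commute (S (YZ a)) (∑ j ∈ s, S (YZ j)) :=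
      Commute.sum_right _ _ _ fun j _ => S_comm _ _
    obtain ⟨r, hr⟩ := hc.exists_add_pow_prime_eq (p := 7) (by norm_num)
    rw [hr, ih, S_pow, seven_mul, zero_mul, zero_mul, add_zero]

theorem taskComb : Pool.Agent.H75R4.Gab.TaskComb := by
  classical
  rintro ⟨T, hT⟩
  have hT' : ∀ x : G, ∃! j : Fin 7, T (x - YZ j) := hT
  set τ : G → ZMod 7 := fun x => if T x then 1 else 0 with hτ
  set P : Module.End (ZMod 7) (G → ZMod 7) := ∑ j : Fin 7, S (YZ j) with hP
  have hPapp : ∀ f x, P f x = ∑ j : Fin 7, f (x - YZ j) := by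
    intro f x
    rw [hP, LinearMap.sum_apply, Finset.sum_apply]
    rfl
  have h1 : P τ = fun _ => 1 := by
    funext x
    rw [hPapp]
    obtain ⟨j, hj, hu⟩ := hT' x
    rw [Finset.sum_eq_single j]
    · simp only [hτ]
      rw [if_pos hj]
    · intro k _ hk
      simp only [hτ]
      rw [if_neg]
      intro h
      exact hk (hu k h)
    · intro h
      exact absurd (mem_univ _) h
  have h2 : P (fun _ => 1) = 0 := by
    funext x
    rw [hPapp]
    simp
    decide
  have h3 : (P ^ 7) τ = 0 := by
    have : P ^ 7 = P ^ 5 * (P * P) := by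
      rw [← pow_two, ← pow_add]
    rw [this, Module.End.mul_apply, Module.End.mul_apply, h1, h2, map_zero]
  rw [hP, frob] at h3
  have h4 : ∀ x : G, ∑ j : Fin 7, τ (x - 7 • YZ j) = 0 := by
    intro x
    have := congrFun h3 x
    rw [LinearMap.sum_apply, Finset.sum_apply] at this
    exact this
  have h5 : ∀ x : G, (∀ j, T (x - 7 • YZ j)) ∨ (∀ j, ¬ T (x - 7 • YZ j)) := by
    intro x
    have h6 := h4 x
    simp only [hτ] at h6
    rw [Finset.sum_boole, ZMod.natCast_eq_zero_iff] at h6
    set F := univ.filter (fun j : Fin 7 => T (x - 7 • YZ j)) with hF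
    have h7 : F.card ≤ 7 := by
      have := card_le_univ F
      simpa using this
    rcases Nat.eq_zero_or_pos F.card with h0 | h0
    · right
      intro j hj
      rw [card_eq_zero] at h0
      have : j ∈ F := by rw [hF, mem_filter]; exact ⟨mem_univ _, hj⟩
      rw [h0] at this
      exact absurd this (notMem_empty _)
    · left
      have h8 : F.card = 7 := le_antisymm h7 (Nat.le_of_dvd h0 h6)
      have h9 : F = univ := by
        rw [← card_eq_iff_eq_univ, h8, Fintype.card_fin]
      intro j
      have : j ∈ F := by rw [h9]; exact mem_univ _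
      rw [hF, mem_filter] at this
      exact this.2
  have hy0 : YZ 0 = 0 := by decide
  have h6 : ∀ j (x : G), T (x - 7 • YZ j) ↔ T x := by
    intro j x
    have e : x - 7 • YZ 0 = x := by rw [hy0, smul_zero, sub_zero]
    rcases h5 x with h | h
    · have := h 0
      rw [e] at this
      exact ⟨fun _ => this, fun _ => h j⟩
    · have := h 0
      rw [e] at this
      exact ⟨fun h' => absurd h' (h j), fun h' => absurd h' this⟩
  let H : AddSubgroup G :=
    { carrier := {y | ∀ x, T (x - y) ↔ T x}
      zero_mem' := fun x => by rw [sub_zero]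
      add_mem' := fun {a b} ha hb x => by rw [← sub_sub, hb, ha]
      neg_mem' := fun {a} ha x => by
        have := ha (x - -a)
        rw [sub_neg_eq_add, add_sub_cancel_right] at this
        rw [sub_neg_eq_add]
        exact this.symm }
  have hH : ∀ j, 7 • YZ j ∈ H := fun j x => h6 j x
  have hY3 : YZ 3 = (-9 : ℤ) • (7 • YZ 1) + (-9 : ℤ) • (7 • YZ 2) + (-5 : ℤ) • (7 • YZ 3) +
      (-6 : ℤ) • (7 • YZ 5) + (-6 : ℤ) • (7 • YZ 6) := by decide
  have hmem : YZ 3 ∈ H := by
    rw [hY3]
    exact H.add_mem (H.add_mem (H.add_mem (H.add_mem (H.zsmul_mem (hH 1) _)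
      (H.zsmul_mem (hH 2) _)) (H.zsmul_mem (hH 3) _)) (H.zsmul_mem (hH 5) _))
      (H.zsmul_mem (hH 6) _)
  obtain ⟨j, hj, _⟩ := hT' 0
  set t : G := 0 - YZ j with ht
  have hinv : ∀ x, T (x - YZ 3) ↔ T x := hmem
  have ha : T (t + YZ 3 - YZ 3) := by rw [add_sub_cancel_right]; exact hj
  have hb : T (t + YZ 3 - YZ 0) := by
    rw [hy0, sub_zero]
    exact (hinv _).1 ha
  have := (hT' (t + YZ 3)).unique ha hb
  exact absurd this (by decide)

end Pool.Agent.H105R3.Gab
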